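import Pool.Agent.helper88.RQ2.Spec

set_option autoImplicit false

open Set Matroid RadonMin

namespace RadonQ2

theorem EB_proof : EB_stmt := by
  intro V _ _ _
  have h1 : ∀ A X : Finset V, A ⊆ X → rk (affMat X) (A : Set V) = ra A := by
    intro A X hAX
    unfold ra
    rw [← affMat_restrict X hAX]
    exact (rk_restrict (affMat X) (Set.Subset.refl (A : Set V))).symm
  have h4 : ∀ A : Finset V, ra A ≤ A.card := by
    intro A
    have h := rk_le_ncard (M := affMat A) (X := (A : Set V)) (Set.Subset.refl _)
    rw [Set.ncard_coe_finset] at h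
    exact h
  have hone : ∀ (A I : Finset V), I ⊆ A → I.card ≤ 2 → I.card ≤ ra A := by
    intro A I hIA hI
    have hsub : (I : Set V) ⊆ (affMat A).E := by
      rw [affMat_E]
      exact_mod_cast hIA
    have h := (affMat_simp A).indep_of_ncard_le hsub (by rw [Set.ncard_coe_finset]; exact hI)
    have h2 := rk_indep h
    rw [Set.ncard_coe_finset] at h2
    have h3 : rk (affMat A) (I : Set V) ≤ rk (affMat A) (A : Set V) :=
      rk_mono (affMat A) (by exact_mod_cast hIA)
    unfold ra
    omega
  refine ⟨h1, ?_, ?_, h4, ?_, ?_, ?_⟩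
  · intro A X hAX
    rw [← h1 A X hAX]
    exact rk_mono (affMat X) (by exact_mod_cast hAX)
  · intro A B
    rw [← h1 A (A ∪ B) Finset.subset_union_left, ← h1 B (A ∪ B) Finset.subset_union_right]
    have h := rk_union_le (affMat (A ∪ B)) (A : Set V) (B : Set V)
    have h2 : ra (A ∪ B) = rk (affMat (A ∪ B)) ((A : Set V) ∪ (B : Set V)) := by
      unfold ra
      rw [Finset.coe_union]
    rw [h2]
    exact h
  · have h := h4 ∅
    rw [Finset.card_empty] at h
    omega
  · intro A hA
    obtain ⟨x, hx⟩ := hA
    have h := hone A {x} (by simpa using hx) (by simp)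
    simpa using h
  · intro A hA
    obtain ⟨I, hI, hI2⟩ := Finset.exists_subset_card_eq hA
    have h := hone A I hI (by omega)
    omega

end RadonQ2
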